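import Pool.Agent.Y745.UP.Defs
import Pool.Agent.Y755.Fin4
import Pool.Agent.W184.ZetaB

set_option autoImplicit false

/-! Moments of zeta at distance `1 / log T` from the critical line (statement `P_OUT` of the UP project of helper745), from
`Pool.Agent.Y755.full_up`, `full_up4` and the functional equation. -/

namespace Pool.Agent.V8H36.UP

open Filter Topology MeasureTheory Complex H370 Pool.Agent.Y745.UP Pool.Agent.Y755 Pool.Agent.W184 Pool.Agent.H306R2

noncomputable section

lemma DD_up {α : ℝ} (hα : 0 < α) : ∃ C δ0 : ℝ, 1 ≤ C ∧ 0 < δ0 ∧ ∀ δ : ℝ, 0 < δ → δ ≤ δ0 →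
    (2 * δ) ^ (α ^ 2) * DD α δ ≤ C := by
  have h0 : ∀ᶠ T : ℝ in atTop, (0:ℝ) < 1 / T := by
    filter_upwards [eventually_gt_atTop 0] with T hT
    positivity
  have h1 : Tendsto (fun T : ℝ => 1 / T) atTop (𝓝 0) := by
    simpa using tendsto_inv_atTop_zero (𝕜 := ℝ)
  have h := DD_asym hα h0 h1
  have h2 := h.eventually_le_const (lt_add_one (aF α))
  obtain ⟨T0, hT0⟩ := eventually_atTop.1 h2
  refine ⟨max 1 (aF α + 1), 1 / max T0 1, le_max_left _ _, by positivity, fun δ hδ hδ1 => ?_⟩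
  have h3 : T0 ≤ 1 / δ := by
    rw [le_div_iff₀ (lt_of_lt_of_le one_pos (le_max_right _ _))] at hδ1
    rw [le_div_iff₀ hδ]
    calc T0 * δ ≤ max T0 1 * δ := mul_le_mul_of_nonneg_right (le_max_left _ _) hδ.le
      _ = δ * max T0 1 := mul_comm _ _
      _ ≤ 1 := hδ1
  have h4 := hT0 (1 / δ) h3
  rw [one_div_one_div] at h4
  exact h4.trans (le_max_right _ _)

/-- the moments to the right of the line, `0 < α ≤ 2` -/
lemma right_up {α : ℝ} (h0 : 0 < α) (h2 : α ≤ 2) : ∃ lam : ℝ, 1 ≤ lam ∧ ∀ᶠ X : ℝ in atTop, ∀ δ : ℝ,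
    lam / Real.log X ≤ δ → δ ≤ 1 / 16 → ∫ t in (0:ℝ)..X, zn (1 / 2 + δ) t ^ (2 * α) ≤ 2 * (X * DD α δ) := by
  rcases le_total α 1 with h | h
  · obtain ⟨lam, h1, h3⟩ := full_up h0 h one_pos
    refine ⟨lam, h1, ?_⟩
    filter_upwards [h3] with X h3 δ a1 a2
    have := h3 δ a1 a2
    norm_num at this ⊢
    linarith
  · obtain ⟨lam, h1, h3⟩ := full_up4 h h2 one_pos
    refine ⟨lam, h1, ?_⟩
    filter_upwards [h3] with X h3 δ a1 a2
    have := h3 δ a1 a2
    norm_num at this ⊢
    linarith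

lemma zn_cont' {σ : ℝ} (hσ : σ ≠ 1) : Continuous (fun t : ℝ => ‖riemannZeta ((σ : ℂ) + t * I)‖) := by
  refine Continuous.norm ?_
  rw [continuous_iff_continuousAt]
  intro t
  have hne : (σ : ℂ) + (t : ℂ) * I ≠ 1 := by
    intro h
    have h1 := congrArg Complex.re h
    simp at h1
    exact hσ h1
  exact ContinuousAt.comp (f := fun t : ℝ => (σ : ℂ) + (t : ℂ) * I) (g := riemannZeta)
    (differentiableAt_riemannZeta hne).continuousAt (by fun_prop)

theorem t_OUT : P_OUT := by
  intro α h0 h2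
  obtain ⟨lam, hl1, hu⟩ := right_up h0 h2
  obtain ⟨C0, δ0, hC0, hδ0, hDD⟩ := DD_up h0
  refine ⟨lam, hl1, fun K hK => ?_⟩
  refine ⟨(2 * Real.exp (2 * K)) ^ (2 * α) * (8 * C0) + 8 * C0, ?_, ?_⟩
  · have : 0 ≤ (2 * Real.exp (2 * K)) ^ (2 * α) * (8 * C0) := by positivity
    linarith
  have h4 : Tendsto (fun T : ℝ => 4 * T) atTop atTop := tendsto_id.const_mul_atTop (by norm_num)
  filter_upwards [h4.eventually hu, Real.tendsto_log_atTop.eventually_ge_atTop (K / δ0 + 16 * K + 2),
    eventually_ge_atTop 400] with T hT hL hT1 x hx1 hx2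
  have hT0 : 0 < T := by linarith
  set L := Real.log T with hLd
  have hK0 : 0 < K := by linarith
  have hKδ : 0 < K / δ0 := by positivity
  have hL0 : 0 < L := by linarith
  have hl4 : L ≤ Real.log (4 * T) := Real.log_le_log hT0 (by linarith)
  have hl42 : Real.log (4 * T) ≤ 2 * L := by
    rw [Real.log_mul (by norm_num) hT0.ne']
    have : Real.log 4 ≤ Real.log T := Real.log_le_log (by norm_num) (by linarith)
    linarith
  -- the bound for positive shifts
  have hpos : ∀ δ : ℝ, lam / L ≤ δ → δ ≤ K / L →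
      ∫ t in (T / 4)..(4 * T), ‖riemannZeta (((1 / 2 + δ : ℝ) : ℂ) + t * I)‖ ^ (2 * α) ≤
        8 * C0 * (T * L ^ (α ^ 2)) := by
    intro δ hδ1 hδ2
    have hδpos : 0 < δ := lt_of_lt_of_le (by positivity) hδ1
    have hδ16 : δ ≤ 1 / 16 := by
      refine hδ2.trans ?_
      rw [div_le_iff₀ hL0]
      linarith
    have hδδ : δ ≤ δ0 := by
      refine hδ2.trans ?_
      rw [div_le_iff₀ hL0]
      have : K / δ0 ≤ L := by linarith
      rw [div_le_iff₀ hδ0] at this
      linarith
    have a1 := hT δ ((div_le_div_of_nonneg_left (by linarith) hL0 hl4).trans hδ1) hδ16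
    have a2 := hDD δ hδpos hδδ
    have a3 : DD α δ ≤ C0 * L ^ (α ^ 2) := by
      have b1 : 0 < (2 * δ) ^ (α ^ 2) := Real.rpow_pos_of_pos (by positivity) _
      have b2 : DD α δ ≤ C0 / (2 * δ) ^ (α ^ 2) := by
        rw [le_div_iff₀ b1]; linarith
      refine b2.trans ?_
      rw [div_eq_mul_inv, ← Real.inv_rpow (by positivity)]
      refine mul_le_mul_of_nonneg_left ?_ (by linarith)
      refine Real.rpow_le_rpow (by positivity) ?_ (by positivity)
      rw [inv_le_comm₀ (by positivity) hL0]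
      have b3 : L⁻¹ ≤ lam / L := by
        rw [inv_eq_one_div]
        exact div_le_div_of_nonneg_right hl1 hL0.le
      linarith
    have hcont : Continuous (fun t : ℝ => zn (1 / 2 + δ) t ^ (2 * α)) := by
      unfold zn
      exact (zn_cont' (by linarith)).rpow_const fun _ => Or.inr (by linarith)
    calc ∫ t in (T / 4)..(4 * T), ‖riemannZeta (((1 / 2 + δ : ℝ) : ℂ) + t * I)‖ ^ (2 * α)
        ≤ ∫ t in (0:ℝ)..(4 * T), zn (1 / 2 + δ) t ^ (2 * α) := by
          refine intervalIntegral.integral_mono_interval (by linarith) (by linarith) le_rfl ?_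
            (hcont.intervalIntegrable _ _)
          exact Eventually.of_forall fun t => Real.rpow_nonneg (zn_nonneg _ _) _
      _ ≤ 2 * (4 * T * DD α δ) := a1
      _ ≤ 2 * (4 * T * (C0 * L ^ (α ^ 2))) := by gcongr
      _ = 8 * C0 * (T * L ^ (α ^ 2)) := by ring
  have hLp : 0 ≤ T * L ^ (α ^ 2) := by positivity
  rcases le_total 0 x with h | h
  · rw [abs_of_nonneg h] at hx1 hx2
    refine (hpos x hx1 hx2).trans ?_
    refine mul_le_mul_of_nonneg_right ?_ hLp
    have : 0 ≤ (2 * Real.exp (2 * K)) ^ (2 * α) * (8 * C0) := by positivity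
    linarith
  · rw [abs_of_nonpos h] at hx1 hx2
    have hp := hpos (-x) hx1 hx2
    have hx0 : 0 ≤ -x := by linarith
    have hx8 : -x ≤ 1 / 8 := by
      refine hx2.trans ?_
      rw [div_le_iff₀ hL0]
      linarith
    have hpt : ∀ t ∈ Set.Icc (T / 4) (4 * T), ‖riemannZeta (((1 / 2 + x : ℝ) : ℂ) + t * I)‖ ^ (2 * α) ≤
        (2 * Real.exp (2 * K)) ^ (2 * α) * ‖riemannZeta (((1 / 2 + -x : ℝ) : ℂ) + t * I)‖ ^ (2 * α) := by
      intro t ht
      have ht100 : 100 ≤ t := by linarith [ht.1]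
      have a1 := fe_pos hx0 hx8 ht100
      rw [show (1 / 2 - -x : ℝ) = 1 / 2 + x by ring] at a1
      rw [← Real.mul_rpow (by positivity) (norm_nonneg _)]
      refine Real.rpow_le_rpow (norm_nonneg _) (a1.trans ?_) (by linarith)
      refine mul_le_mul_of_nonneg_right ?_ (norm_nonneg _)
      have a2 : t ^ (-x) ≤ Real.exp (2 * K) := by
        rw [Real.rpow_def_of_pos (by linarith), Real.exp_le_exp]
        have b1 : Real.log t ≤ 2 * L := (Real.log_le_log (by linarith) ht.2).trans hl42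
        have b2 : 0 ≤ Real.log t := Real.log_nonneg (by linarith)
        calc Real.log t * -x ≤ 2 * L * (K / L) := mul_le_mul b1 hx2 hx0 (by positivity)
          _ = 2 * K := by field_simp
      have a3 : 1 + 16 / t ≤ 2 := by
        have : 16 / t ≤ 1 := by rw [div_le_one (by linarith)]; linarith
        linarith
      calc t ^ (-x) * (1 + 16 / t) ≤ Real.exp (2 * K) * 2 := by
            refine mul_le_mul a2 a3 ?_ (Real.exp_pos _).le
            have : 0 ≤ 16 / t := by have : 0 < t := by linarith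
                                    positivity
            linarith
        _ = 2 * Real.exp (2 * K) := by ring
    have c1 : Continuous (fun t : ℝ => ‖riemannZeta (((1 / 2 + x : ℝ) : ℂ) + t * I)‖ ^ (2 * α)) :=
      (zn_cont' (by linarith)).rpow_const fun _ => Or.inr (by linarith)
    have c2 : Continuous (fun t : ℝ => (2 * Real.exp (2 * K)) ^ (2 * α) *
        ‖riemannZeta (((1 / 2 + -x : ℝ) : ℂ) + t * I)‖ ^ (2 * α)) :=
      continuous_const.mul ((zn_cont' (by linarith)).rpow_const fun _ => Or.inr (by linarith))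
    have c3 := intervalIntegral.integral_mono_on (μ := volume) (a := T / 4) (b := 4 * T) (by linarith)
      (c1.intervalIntegrable _ _) (c2.intervalIntegrable _ _) hpt
    rw [intervalIntegral.integral_const_mul] at c3
    refine c3.trans ?_
    calc (2 * Real.exp (2 * K)) ^ (2 * α) *
          ∫ t in (T / 4)..(4 * T), ‖riemannZeta (((1 / 2 + -x : ℝ) : ℂ) + t * I)‖ ^ (2 * α)
        ≤ (2 * Real.exp (2 * K)) ^ (2 * α) * (8 * C0 * (T * L ^ (α ^ 2))) :=
          mul_le_mul_of_nonneg_left hp (by positivity)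
      _ ≤ _ := by
        have : 0 ≤ 8 * C0 * (T * L ^ (α ^ 2)) := by positivity
        rw [add_mul]
        linarith

end

end Pool.Agent.V8H36.UP
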