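import Pool.Agent.Y745.UP.Defs
import Pool.Agent.H370R2.DirGood
import Pool.Agent.V8H36.LD.G1M

set_option autoImplicit false

/-! Short intervals rarely contain many zeros (statement `P_NZM` of the UP project of helper745), from the exponential tails
`Pool.Agent.Q97.UM.b_TAIL`. -/

namespace Pool.Agent.V8H36.UP

open Filter Topology MeasureTheory Complex H370 Pool.Agent.Y745.UP Pool.Agent.Q97.UM Pool.Agent.Q210.UM

noncomputable section

theorem hZ : S_ZF2 := Pool.Agent.Q178.UM.ZF2.t_ZF2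

lemma vol_dyadic {c C : ℝ} {T : ℝ} (h : ∀ K : ℕ, ∫ t in {t : ℝ | T ≤ t ∧ t ≤ 2 * T ∧ K ≤ nz t (1 / Real.log T)},
      ‖dp 1 (fun _ => 1) t‖ ^ 2 ≤ C * Real.exp (-(c * K)) * T * N2 1 (fun _ => 1)) {ρ0 : ℝ}
    (hρ : ρ0 ≤ 1 / Real.log T) (K : ℕ) :
    volume.real {t : ℝ | T ≤ t ∧ t ≤ 2 * T ∧ K ≤ nz t ρ0} ≤ C * Real.exp (-(c * K)) * T := by
  have h1 := h K
  rw [Pool.Agent.V8H36.LD.int_one, Pool.Agent.V8H36.LD.N2_one, mul_one] at h1
  refine le_trans (measureReal_mono ?_ ?_) h1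
  · rintro t ⟨a1, a2, a3⟩
    exact ⟨a1, a2, a3.trans (nz_mono hZ (Zw_sub (by simpa using hρ)))⟩
  · refine ne_top_of_le_ne_top (b := volume (Set.Icc T (2 * T))) (by simp) (measure_mono ?_)
    rintro t ⟨h1, h2, -⟩
    exact ⟨h1, h2⟩

/-- four dyadic blocks -/
lemma vol_four {T ρ0 B : ℝ} (hT : 0 < T) (K : ℕ)
    (h : ∀ T' : ℝ, (T' = T / 4 ∨ T' = T / 2 ∨ T' = T ∨ T' = 2 * T) →
      volume.real {t : ℝ | T' ≤ t ∧ t ≤ 2 * T' ∧ K ≤ nz t ρ0} ≤ B * T') (hB : 0 ≤ B) :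
    volume.real {t : ℝ | T / 4 ≤ t ∧ t ≤ 4 * T ∧ K ≤ nz t ρ0} ≤ 4 * B * T := by
  have hfin : ∀ a b : ℝ, volume {t : ℝ | a ≤ t ∧ t ≤ b ∧ K ≤ nz t ρ0} ≠ ⊤ := by
    intro a b
    refine ne_top_of_le_ne_top (b := volume (Set.Icc a b)) (by simp) (measure_mono ?_)
    rintro t ⟨h1, h2, -⟩
    exact ⟨h1, h2⟩
  have hsub : {t : ℝ | T / 4 ≤ t ∧ t ≤ 4 * T ∧ K ≤ nz t ρ0} ⊆
      ({t : ℝ | T / 4 ≤ t ∧ t ≤ 2 * (T / 4) ∧ K ≤ nz t ρ0} ∪ {t : ℝ | T / 2 ≤ t ∧ t ≤ 2 * (T / 2) ∧ K ≤ nz t ρ0}) ∪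
      ({t : ℝ | T ≤ t ∧ t ≤ 2 * T ∧ K ≤ nz t ρ0} ∪ {t : ℝ | 2 * T ≤ t ∧ t ≤ 2 * (2 * T) ∧ K ≤ nz t ρ0}) := by
    rintro t ⟨h1, h2, h3⟩
    simp only [Set.mem_union, Set.mem_setOf_eq]
    rcases le_total t (T / 2) with a | a
    · left; left; exact ⟨h1, by linarith, h3⟩
    rcases le_total t T with b | b
    · left; right; exact ⟨a, by linarith, h3⟩
    rcases le_total t (2 * T) with d | d
    · right; left; exact ⟨b, d, h3⟩
    · right; right; exact ⟨d, by linarith, h3⟩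
  have q1 := h (T / 4) (Or.inl rfl)
  have q2 := h (T / 2) (Or.inr (Or.inl rfl))
  have q3 := h T (Or.inr (Or.inr (Or.inl rfl)))
  have q4 := h (2 * T) (Or.inr (Or.inr (Or.inr rfl)))
  have u := measureReal_mono hsub (by
    refine measure_union_ne_top (measure_union_ne_top (hfin _ _) (hfin _ _)) (measure_union_ne_top (hfin _ _) (hfin _ _)))
  have u1 := measureReal_union_le (μ := volume)
    ({t : ℝ | T / 4 ≤ t ∧ t ≤ 2 * (T / 4) ∧ K ≤ nz t ρ0} ∪ {t : ℝ | T / 2 ≤ t ∧ t ≤ 2 * (T / 2) ∧ K ≤ nz t ρ0})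
    ({t : ℝ | T ≤ t ∧ t ≤ 2 * T ∧ K ≤ nz t ρ0} ∪ {t : ℝ | 2 * T ≤ t ∧ t ≤ 2 * (2 * T) ∧ K ≤ nz t ρ0})
  have u2 := measureReal_union_le (μ := volume) {t : ℝ | T / 4 ≤ t ∧ t ≤ 2 * (T / 4) ∧ K ≤ nz t ρ0}
    {t : ℝ | T / 2 ≤ t ∧ t ≤ 2 * (T / 2) ∧ K ≤ nz t ρ0}
  have u3 := measureReal_union_le (μ := volume) {t : ℝ | T ≤ t ∧ t ≤ 2 * T ∧ K ≤ nz t ρ0}
    {t : ℝ | 2 * T ≤ t ∧ t ≤ 2 * (2 * T) ∧ K ≤ nz t ρ0}
  nlinarith [mul_nonneg hB hT.le]

theorem t_NZM : P_NZM := by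
  intro e A' he hA'
  obtain ⟨θ, c, C, hθ, hθ1, hc, hC, hT⟩ := b_TAIL
  unfold TailB at hT
  have t1 : Tendsto (fun T : ℝ => T / 4) atTop atTop := tendsto_id.atTop_div_const (by norm_num)
  have t2 : Tendsto (fun T : ℝ => T / 2) atTop atTop := tendsto_id.atTop_div_const (by norm_num)
  have t3 : Tendsto (fun T : ℝ => 2 * T) atTop atTop := tendsto_id.const_mul_atTop (by norm_num)
  have hlog := Real.tendsto_log_atTop
  -- the numerical condition
  have hnum : ∀ᶠ L : ℝ in atTop, 28 * C * Real.exp (-(c * (L ^ e / 7))) ≤ 1 / L ^ A' := by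
    have h1 : Tendsto (fun L : ℝ => L ^ e) atTop atTop := tendsto_rpow_atTop he
    have h2 := tendsto_rpow_mul_exp_neg_mul_atTop_nhds_zero (A' / e) (c / 7) (by positivity)
    have h3 := (h2.comp h1).eventually_le_const (show (0:ℝ) < 1 / (28 * C + 1) by positivity)
    filter_upwards [h3, eventually_gt_atTop 0] with L h3 hL
    simp only [Function.comp] at h3
    have e1 : (L ^ e) ^ (A' / e) = L ^ A' := by
      rw [← Real.rpow_mul hL.le]; congr 1; field_simp
    rw [e1] at h3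
    have e2 : -(c / 7) * L ^ e = -(c * (L ^ e / 7)) := by ring
    rw [e2] at h3
    have hLA : 0 < L ^ A' := Real.rpow_pos_of_pos hL _
    rw [le_div_iff₀ hLA]
    rw [le_div_iff₀ (by positivity)] at h3
    have hE : 0 < Real.exp (-(c * (L ^ e / 7))) := Real.exp_pos _
    nlinarith [mul_pos hLA hE]
  filter_upwards [t1.eventually hT, t2.eventually hT, hT, t3.eventually hT, hlog.eventually hnum,
    hlog.eventually_ge_atTop 6, eventually_ge_atTop 100] with T q1 q2 q3 q4 hn hL hT100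
  have hT0 : 0 < T := by linarith
  set L := Real.log T with hLd
  have hL0 : 0 < L := by linarith
  set ρ0 : ℝ := 1 / Real.log (4 * T) with hρ0
  have hl4 : L ≤ Real.log (4 * T) := Real.log_le_log hT0 (by linarith)
  have hl42 : Real.log (4 * T) ≤ 2 * L := by
    rw [Real.log_mul (by norm_num) hT0.ne']
    have : Real.log 4 ≤ Real.log T := Real.log_le_log (by norm_num) (by linarith)
    linarith
  have hl40 : 0 < Real.log (4 * T) := by linarith
  have hρpos : 0 < ρ0 := by positivity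
  set w : ℝ := 3 / L with hw
  have hw0 : 0 ≤ w := by positivity
  set n0 := ⌈w / ρ0⌉₊ + 1 with hn0
  have hn7 : n0 ≤ 7 := by
    have h1 : w / ρ0 ≤ 6 := by
      rw [hw, hρ0, div_div_eq_mul_div, div_one, div_mul_eq_mul_div, div_le_iff₀ hL0]
      linarith
    have h2 : ⌈w / ρ0⌉₊ ≤ 6 := Nat.ceil_le.2 (by exact_mod_cast h1)
    omega
  set K : ℕ := ⌈L ^ e / 7⌉₊ with hK
  set off : ℕ → ℝ := fun j => -w + ρ0 + 2 * ρ0 * j with hoff
  have hoffb : ∀ j ∈ Finset.range n0, |off j| ≤ 1 := by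
    intro j hj
    refine (off_bd hρpos hw0 hj).trans ?_
    have h1 : ρ0 ≤ 1 / L := one_div_le_one_div_of_le hL0 hl4
    have h2 : 1 / L ≤ 1 / 6 := one_div_le_one_div_of_le (by norm_num) hL
    have h3 : w = 3 * (1 / L) := by rw [hw]; ring
    rw [h3]; linarith
  set P : ℕ → Set ℝ := fun j => {t : ℝ | K ≤ nz (t + off j) ρ0} with hP
  have hPm : ∀ j, MeasurableSet (P j) := by
    intro j
    exact (hZ.2.1 ρ0 K).preimage (measurable_id.add_const _)
  set E : Set ℝ := Set.Icc (T / 2) (3 * T) ∩ ⋃ j ∈ Finset.range n0, P j with hE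
  refine ⟨E, ?_, Set.inter_subset_left, ?_, ?_⟩
  · exact measurableSet_Icc.inter (Finset.measurableSet_biUnion _ fun j _ => hPm j)
  · -- the measure
    have hρT : ∀ T' : ℝ, 1 < T' → T' ≤ 4 * T → ρ0 ≤ 1 / Real.log T' := by
      intro T' h1 h2
      exact one_div_le_one_div_of_le (Real.log_pos h1) (Real.log_le_log (by linarith) h2)
    have hone : ∀ T' : ℝ, 1 ≤ T' → ((1 : ℕ) : ℝ) ≤ T' ^ θ := by
      intro T' h1
      rw [Nat.cast_one]
      exact Real.one_le_rpow h1 hθ.le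
    have hB : 0 ≤ C * Real.exp (-(c * K)) := by positivity
    have hfour := vol_four (T := T) (ρ0 := ρ0) (B := C * Real.exp (-(c * K))) hT0 K (by
      intro T' hT'
      rcases hT' with rfl | rfl | rfl | rfl
      · exact vol_dyadic ((q1 1 (hone _ (by linarith)) (fun _ => 1)).2) (hρT _ (by linarith) (by linarith)) K
      · exact vol_dyadic ((q2 1 (hone _ (by linarith)) (fun _ => 1)).2) (hρT _ (by linarith) (by linarith)) K
      · exact vol_dyadic ((q3 1 (hone _ (by linarith)) (fun _ => 1)).2) (hρT _ (by linarith) (by linarith)) K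
      · exact vol_dyadic ((q4 1 (hone _ (by linarith)) (fun _ => 1)).2) (hρT _ (by linarith) (by linarith)) K) hB
    have hj : ∀ j ∈ Finset.range n0, volume.real (Set.Icc (T / 2) (3 * T) ∩ P j) ≤
        4 * (C * Real.exp (-(c * K))) * T := by
      intro j hj
      refine le_trans ?_ hfour
      have hb := abs_le.1 (hoffb j hj)
      have e1 : volume.real ((fun t => t + off j) ⁻¹' {t : ℝ | T / 4 ≤ t ∧ t ≤ 4 * T ∧ K ≤ nz t ρ0}) =
          volume.real {t : ℝ | T / 4 ≤ t ∧ t ≤ 4 * T ∧ K ≤ nz t ρ0} := by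
        unfold Measure.real
        rw [measure_preimage_add_right]
      rw [← e1]
      refine measureReal_mono ?_ ?_
      · rintro t ⟨⟨a1, a2⟩, a3⟩
        exact ⟨by linarith, by linarith, a3⟩
      · rw [measure_preimage_add_right]
        refine ne_top_of_le_ne_top (b := volume (Set.Icc (T / 4) (4 * T))) (by simp) (measure_mono ?_)
        rintro t ⟨h1, h2, -⟩
        exact ⟨h1, h2⟩
    have hEu : E ⊆ ⋃ j ∈ Finset.range n0, (Set.Icc (T / 2) (3 * T) ∩ P j) := by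
      rintro t ⟨h1, h2⟩
      simp only [Set.mem_iUnion] at h2 ⊢
      obtain ⟨j, hj, h3⟩ := h2
      exact ⟨j, hj, h1, h3⟩
    have hsum : volume.real E ≤ ∑ j ∈ Finset.range n0, volume.real (Set.Icc (T / 2) (3 * T) ∩ P j) := by
      refine (measureReal_mono hEu ?_).trans (measureReal_biUnion_finset_le _ _)
      refine ne_top_of_le_ne_top (b := volume (Set.Icc (T / 2) (3 * T))) (by simp) (measure_mono ?_)
      refine Set.iUnion₂_subset fun j _ => Set.inter_subset_left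
    have hfin : ∑ j ∈ Finset.range n0, volume.real (Set.Icc (T / 2) (3 * T) ∩ P j) ≤
        7 * (4 * (C * Real.exp (-(c * K))) * T) := by
      refine (Finset.sum_le_sum hj).trans ?_
      rw [Finset.sum_const, Finset.card_range, nsmul_eq_mul]
      have : (n0 : ℝ) ≤ 7 := by exact_mod_cast hn7
      have h0 : 0 ≤ 4 * (C * Real.exp (-(c * K))) * T := by positivity
      exact mul_le_mul_of_nonneg_right this h0
    have hexp : Real.exp (-(c * K)) ≤ Real.exp (-(c * (L ^ e / 7))) := by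
      rw [Real.exp_le_exp]
      have : L ^ e / 7 ≤ K := Nat.le_ceil _
      nlinarith
    calc volume.real E ≤ 7 * (4 * (C * Real.exp (-(c * K))) * T) := hsum.trans hfin
      _ ≤ 7 * (4 * (C * Real.exp (-(c * (L ^ e / 7)))) * T) := by gcongr
      _ = (28 * C * Real.exp (-(c * (L ^ e / 7)))) * T := by ring
      _ ≤ (1 / L ^ A') * T := mul_le_mul_of_nonneg_right hn hT0.le
      _ = T / L ^ A' := by ring
  · intro t ht htE
    have h1 : ∀ j ∈ Finset.range n0, (nz (t + off j) ρ0 : ℝ) ≤ L ^ e / 7 := by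
      intro j hj
      by_contra hcon
      push Not at hcon
      apply htE
      refine ⟨ht, ?_⟩
      simp only [Set.mem_iUnion]
      refine ⟨j, hj, ?_⟩
      exact Nat.ceil_le.2 hcon.le
    have h2 := nz_cover hZ (t := t) hρpos hw0
    have h3 : (nz t w : ℝ) ≤ ∑ j ∈ Finset.range n0, (nz (t + off j) ρ0 : ℝ) := by
      exact_mod_cast h2
    have h4 : ∑ j ∈ Finset.range n0, (nz (t + off j) ρ0 : ℝ) ≤ L ^ e := by
      refine (Finset.sum_le_sum h1).trans ?_
      rw [Finset.sum_const, Finset.card_range, nsmul_eq_mul]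
      have h5 : (n0 : ℝ) ≤ 7 := by exact_mod_cast hn7
      have h6 : 0 ≤ L ^ e := Real.rpow_nonneg hL0.le _
      calc (n0 : ℝ) * (L ^ e / 7) ≤ 7 * (L ^ e / 7) := mul_le_mul_of_nonneg_right h5 (by positivity)
        _ = L ^ e := by ring
    have h5 : (NN riemannZeta (t - 3 / L) (t + 3 / L) : ℝ) ≤ nz t w := by
      have h6 : NN riemannZeta (t - 3 / L) (t + 3 / L) ≤ nz t w := by
        have hsub : zset riemannZeta (t - 3 / L) (t + 3 / L) ⊆ Zw t w := by
          rintro s ⟨a1, a2, a3, a4, a5⟩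
          refine ⟨a5, a1, a2, ?_⟩
          rw [abs_le]
          constructor <;> linarith
        have hfz := (hZ.1 t w).subset hsub
        rw [nz_eq hZ]
        unfold NN
        rw [finsum_mem_eq_finite_toFinset_sum _ hfz]
        exact Finset.sum_le_sum_of_subset (Set.Finite.toFinset_subset_toFinset.2 hsub)
      exact_mod_cast h6
    linarith

end

end Pool.Agent.V8H36.UP
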